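import Pool.Agent.V11199.TF.All

/-!
# The value of the Toads and Frogs position with `a = 7` is neither `1` nor `1*`

The definitions (rule sets, disjunctive sum, negative, winning as second player, equality of
values, the games `1` and `1*`, Toads and Frogs, the position `T^a □^a F^(a-1)`) are in
`Pool.Agent.V11199.TF.Defs`.

Write `G` for the position with `a = 7`.  A certificate (a set of 17488 positions closed under
all moves of Right followed by a recorded reply of Left) shows that Left wins `G^L - 1` and
`G - 1` moving second, where `G^L` arises from `G` by moving the leading toad one square.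
Hence Left wins `G - 1` and `G - 1*` moving first.
-/

namespace Pool.Agent.Results.MP_a6e7b1_co.ASeven

open Pool.Agent.V11199.TF

theorem cert (t f : ℕ) (ht : t < 1048576) (hf : f < 1048576) (h : M (code t f 1) = true) :
    WinsSecond ((ToadsFrogs 20).sum Small.neg) true ((t, f), SmallPos.one) :=
  sound M (fun c hc => Tree.exists_of_mem M 20 top all_top c hc) _ t f 1 le_rfl ht hf le_rfl h

theorem start_mem : M (code 127 1032192 1) = true := by decide +kernel

theorem next_mem : M (code 191 1032192 1) = true := by decide +kernel

theorem start_eq : start 7 = (127, 1032192) := rfl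

theorem result :
    ¬ SameValue (ToadsFrogs (3 * 7 - 1)) Small (start 7) SmallPos.one ∧
    ¬ SameValue (ToadsFrogs (3 * 7 - 1)) Small (start 7) SmallPos.oneStar := by
  rw [start_eq]
  constructor
  · rintro ⟨-, h⟩
    refine not_winsSecond_of_winsSecond _ _ _ h ((191, 1032192), SmallPos.one) ?_
      (cert 191 1032192 (by norm_num) (by norm_num) next_mem)
    exact mem_leftMoves 20 127 1032192 6 191 (by decide +kernel) _
  · rintro ⟨-, h⟩
    refine not_winsSecond_of_winsSecond _ _ _ h ((127, 1032192), SmallPos.one) ?_
      (cert 127 1032192 (by norm_num) (by norm_num) start_mem)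
    refine List.mem_append_right _ (List.mem_map.mpr ⟨SmallPos.one, ?_, rfl⟩)
    exact List.mem_singleton.mpr rfl

end Pool.Agent.Results.MP_a6e7b1_co.ASeven
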